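import Pool.Agent.LBL.All
import Pool.Agent.PRC.F

set_option autoImplicit false

/-!
# MP_1c0486_pr: distance from the origin to the localization ball

Simple random walk among Bernoulli obstacles on `ℤ^d`, `d ≥ 2`, every site open with probability `p`, `p_c < p < 1`, conditioned on the
origin lying in an infinite open cluster. For every admissible localization ball `B` the Euclidean distance from the origin to
`B n` is of exact order `f(n) = n (log n)^(-1-2/d)`: for every `ε > 0` there are `0 < c < C` with
`P(c f(n) ≤ D_n ≤ C f(n)) ≥ 1 - ε` for all large `n`. Full answer to the question.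
-/

open Finset MeasureTheory Filter Topology

namespace Pool.Agent.Results.MP_1c0486_pr.LocalizationDistance

open Pool.Agent.LBL

theorem result (d : ℕ) (p : ℝ) (hd : 2 ≤ d) (hp : pc d < p) (hp1 : p < 1)
    (B : ℕ → Env d → Finset (Fin d → ℤ)) (hB : AdmBall d p B) (ε : ℝ) (hε : 0 < ε) :
    ∃ c C : ℝ, 0 < c ∧ c < C ∧ ∀ᶠ n : ℕ in atTop,
      1 - ε ≤ (ProbabilityTheory.cond (PP d p) (Inf d)).real
        {ω | c * fn d n ≤ dst (B n ω) ∧ dst (B n ω) ≤ C * fn d n} :=
  q_YFN Pool.Agent.PRC.ldi d p hd hp hp1 B hB ε hε

end Pool.Agent.Results.MP_1c0486_pr.LocalizationDistance
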